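import Mathlib

/-!
The class of representable implication semigroups is not closed under homomorphic images,
hence is not a variety.
-/

namespace Pool.Agent.Lib.MP_390e14_lc.NotVarietyRetired

universe v

/-- `h` embeds the algebra `(A, imp, comp)` into the full implication semigroup over the
transitive relation `T` on `X`. -/
def IsRepresentation {A : Type} (imp comp : A → A → A) {X : Type v} (T : Set (X × X))
    (h : A → Set (X × X)) : Prop :=
  (∀ x y z, (x, y) ∈ T → (y, z) ∈ T → (x, z) ∈ T) ∧
  (∀ a, h a ⊆ T) ∧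
  Function.Injective h ∧
  (∀ a b, h (imp a b) = (T \ h a) ∪ h b) ∧
  (∀ a b, h (comp a b) = {p | ∃ y, (p.1, y) ∈ h a ∧ (y, p.2) ∈ h b})

/-- The algebra `(A, imp, comp)` is representable. -/
def Representable {A : Type} (imp comp : A → A → A) : Prop :=
  ∃ (X : Type v) (T : Set (X × X)) (h : A → Set (X × X)), IsRepresentation imp comp T h

/-- The algebra `(A, imp, comp)` is representable over a finite base set. -/
def FinitelyRepresentable {A : Type} (imp comp : A → A → A) : Prop :=
  ∃ (X : Type v) (T : Set (X × X)) (h : A → Set (X × X)),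
    Finite X ∧ IsRepresentation imp comp T h

/-! The example. Points: x = 0, y0 = 1, y1 = 2, y2 = 3, z1 = 4, z2 = 5, z3 = 6, v = 7. -/

abbrev Rel8 := Fin 8 → Fin 8 → Bool

def ofList (l : List (Fin 8 × Fin 8)) : Rel8 := fun i j => decide ((i, j) ∈ l)

def zl : List (Fin 8 × Fin 8) :=
  [(0,4),(4,4),(4,2),(0,5),(5,5),(5,3),(2,6),(6,6),(6,7)]

def Z : Rel8 := ofList zl

def T : Rel8 := ofList
  [(0,4),(0,2),(0,6),(0,7),(0,5),(0,3),(0,1),(4,4),(4,2),(4,6),(4,7),(2,6),(2,7),(6,6),(6,7),
   (5,5),(5,3),(5,7),(3,7),(1,7)]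

def imp8 (a b : Rel8) : Rel8 := fun i j => (T i j && !a i j) || b i j

def comp8 (a b : Rel8) : Rel8 := fun i j => decide (∃ k, a i k = true ∧ b k j = true)

def sat (a : Rel8) : Rel8 := fun i j => a i j || decide (i = 0 ∧ j = 1)

def Good (a : Rel8) : Prop :=
  (∀ i j, a i j = true → T i j = true) ∧ (∀ i j, Z i j = true → a i j = true) ∧
  (a 0 1 = true ∨ (a 0 2 = true ∧ a 0 3 = true)) ∧ (a 2 7 = true ∨ a 3 7 = true)

instance (a : Rel8) : Decidable (Good a) := by unfold Good; infer_instance

lemma T_trans : ∀ i j k, T i j = true → T j k = true → T i k = true := by decide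

lemma good_imp {a b : Rel8} (hb : Good b) : Good (imp8 a b) := by
  obtain ⟨h1, h2, h3, h4⟩ := hb
  refine ⟨?_, ?_, ?_, ?_⟩
  · intro i j h
    simp only [imp8, Bool.or_eq_true, Bool.and_eq_true] at h
    rcases h with h | h
    · exact h.1
    · exact h1 i j h
  · intro i j h
    simp [imp8, h2 i j h]
  · rcases h3 with h | h
    · left; simp [imp8, h]
    · right; simp [imp8, h.1, h.2]
  · rcases h4 with h | h
    · left; simp [imp8, h]
    · right; simp [imp8, h]

lemma ZZ : ∀ i j, Z i j = true → ∃ k, Z i k = true ∧ Z k j = true := by decide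

lemma good_comp {a b : Rel8} (ha : Good a) (hb : Good b) : Good (comp8 a b) := by
  have key : ∀ i j, (∃ k, Z i k = true ∧ Z k j = true) → comp8 a b i j = true := by
    rintro i j ⟨k, h1, h2⟩
    simp only [comp8, decide_eq_true_eq]
    exact ⟨k, ha.2.1 _ _ h1, hb.2.1 _ _ h2⟩
  refine ⟨?_, ?_, ?_, ?_⟩
  · intro i j h
    simp only [comp8, decide_eq_true_eq] at h
    obtain ⟨k, h1, h2⟩ := h
    exact T_trans _ _ _ (ha.1 _ _ h1) (hb.1 _ _ h2)
  · intro i j h
    exact key i j (ZZ i j h)
  · right
    exact ⟨key _ _ (by decide), key _ _ (by decide)⟩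
  · left
    exact key _ _ (by decide)

lemma good_sat {a : Rel8} (ha : Good a) : Good (sat a) := by
  obtain ⟨h1, h2, h3, h4⟩ := ha
  refine ⟨?_, ?_, ?_, ?_⟩
  · intro i j h
    simp only [sat, Bool.or_eq_true, decide_eq_true_eq] at h
    rcases h with h | ⟨rfl, rfl⟩
    · exact h1 i j h
    · decide
  · intro i j h
    simp [sat, h2 i j h]
  · left; simp [sat]
  · rcases h4 with h | h
    · left; simp [sat, h]
    · right; simp [sat, h]

lemma sat_imp (a b : Rel8) : sat (imp8 a b) = sat (imp8 (sat a) (sat b)) := by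
  funext i j
  by_cases h : i = 0 ∧ j = 1
  · simp [sat, h]
  · simp [sat, imp8, h]

lemma T_into_zero : ∀ i, T i 0 = false := by decide
lemma T_from_one : ∀ j, T 1 j = true → j = 7 := by decide

lemma sat_comp {a b : Rel8} (ha : Good a) (hb : Good b) :
    sat (comp8 a b) = sat (comp8 (sat a) (sat b)) := by
  funext i j
  by_cases h : i = 0 ∧ j = 1
  · simp [sat, h]
  · have : (∃ k, a i k = true ∧ b k j = true) ↔ (∃ k, sat a i k = true ∧ sat b k j = true) := by
      constructor
      · rintro ⟨k, h1, h2⟩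
        exact ⟨k, by simp [sat, h1], by simp [sat, h2]⟩
      · rintro ⟨k, h1, h2⟩
        have hT := (good_sat ha).1 _ _ h1
        simp only [sat, Bool.or_eq_true, decide_eq_true_eq] at h1 h2
        have h2' : b k j = true := by
          rcases h2 with h2 | ⟨rfl, rfl⟩
          · exact h2
          · rw [T_into_zero] at hT; exact absurd hT (by decide)
        rcases h1 with h1 | ⟨rfl, rfl⟩
        · exact ⟨k, h1, h2'⟩
        · have hj := T_from_one j (hb.1 _ _ h2')
          subst hj
          rcases ha.2.2.1 with h01 | ⟨h02, h03⟩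
          · exact ⟨1, h01, h2'⟩
          · rcases hb.2.2.2 with h27 | h37
            · exact ⟨2, h02, h27⟩
            · exact ⟨3, h03, h37⟩
    simp only [sat, comp8] at this ⊢
    simp only [h, decide_false, Bool.or_false]
    exact decide_eq_decide.mpr this

def A := {a : Rel8 // Good a}
def B := {a : Rel8 // Good a ∧ a 0 1 = true}

instance : Finite A := by unfold A; infer_instance
instance : Finite B := by unfold B; infer_instance

def impA (a b : A) : A := ⟨imp8 a.1 b.1, good_imp b.2⟩
def compA (a b : A) : A := ⟨comp8 a.1 b.1, good_comp a.2 b.2⟩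
def f (a : A) : B := ⟨sat a.1, good_sat a.2, by simp [sat]⟩
def impB (a b : B) : B := f (impA ⟨a.1, a.2.1⟩ ⟨b.1, b.2.1⟩)
def compB (a b : B) : B := f (compA ⟨a.1, a.2.1⟩ ⟨b.1, b.2.1⟩)

lemma f_surj : Function.Surjective f := by
  rintro ⟨a, ha, h01⟩
  refine ⟨⟨a, ha⟩, Subtype.ext ?_⟩
  funext i j
  by_cases h : i = 0 ∧ j = 1
  · obtain ⟨rfl, rfl⟩ := h
    simp [f, sat, h01]
  · simp [f, sat, h]

lemma A_rep : FinitelyRepresentable.{v} impA compA := by
  refine ⟨ULift.{v} (Fin 8), {p | T p.1.down p.2.down = true},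
    fun a => {p | a.1 p.1.down p.2.down = true}, inferInstance, ?_, ?_, ?_, ?_, ?_⟩
  · intro x y z h1 h2
    exact T_trans _ _ _ h1 h2
  · intro a p hp
    exact a.2.1 _ _ hp
  · intro a b hab
    apply Subtype.ext
    funext i j
    have := Set.ext_iff.mp hab (⟨i⟩, ⟨j⟩)
    simp only [Set.mem_ofPred_eq] at this
    exact Bool.eq_iff_iff.mpr this
  · intro a b
    ext p
    simp [impA, imp8]
  · intro a b
    ext p
    simp only [compA, comp8, Set.mem_ofPred_eq, decide_eq_true_eq]
    constructor
    · rintro ⟨k, h1, h2⟩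
      exact ⟨⟨k⟩, h1, h2⟩
    · rintro ⟨k, h1, h2⟩
      exact ⟨k.down, h1, h2⟩

def ea : B := ⟨ofList (zl ++ [(0,1),(2,7)]), by decide, by decide⟩
def et : B := ⟨ofList (zl ++ [(0,1),(1,7),(2,7)]), by decide, by decide⟩
def ek : B := ⟨ofList (zl ++ [(0,1),(2,7)]), by decide, by decide⟩
def ek' : B := ⟨ofList (zl ++ [(0,1),(1,7),(3,7)]), by decide, by decide⟩
def er : B := ⟨ofList (zl ++ [(0,1),(0,2),(0,3),(2,7),(0,7),(2,6),(0,6),(4,6)]),
  by decide, by decide⟩

def joinB (p q : B) : B := impB (impB p q) q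

lemma B_ext {p q : B} (h : ∀ i j, p.1 i j = q.1 i j) : p = q :=
  Subtype.ext (funext fun i => funext fun j => h i j)

lemma e1 : impB ea (compB ea ea) = impB ea ea := B_ext (by decide +kernel)
lemma e2 : impB et (joinB ek ek') = impB ea ea := B_ext (by decide +kernel)
lemma e3 : impB (compB ea et) (impB (compB ea ek') er) = impB ea ea := B_ext (by decide +kernel)
lemma e4 : impB (compB ea et) (joinB (compB ea ek) (compB ea er)) ≠ impB ea ea := by
  intro h
  have h2 : (impB (compB ea et) (joinB (compB ea ek) (compB ea er))).1 0 7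
      = (impB ea ea).1 0 7 := by rw [h]
  revert h2
  decide +kernel

lemma B_not_rep : ¬ Representable.{v} impB compB := by
  rintro ⟨X, S, h, htr, hsub, hinj, himp, hcomp⟩
  have hone : h (impB ea ea) = S := by
    rw [himp]
    ext p
    constructor
    · rintro (hp | hp)
      · exact hp.1
      · exact hsub _ hp
    · intro hp
      by_cases hq : p ∈ h ea
      · exact Or.inr hq
      · exact Or.inl ⟨hp, hq⟩
  have hle : ∀ p q, impB p q = impB ea ea → h p ⊆ h q := by
    intro p q hpq e he
    have : e ∈ h (impB p q) := by rw [hpq, hone]; exact hsub _ he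
    rw [himp] at this
    rcases this with h1 | h1
    · exact absurd he h1.2
    · exact h1
  have hjoin : ∀ p q, h (joinB p q) = h p ∪ h q := by
    intro p q
    unfold joinB
    rw [himp, himp]
    ext e
    constructor
    · rintro (⟨h1, h2⟩ | h1)
      · by_cases hp : e ∈ h p
        · exact Or.inl hp
        · exact absurd (Or.inl ⟨h1, hp⟩) h2
      · exact Or.inr h1
    · rintro (h1 | h1)
      · by_cases hq : e ∈ h q
        · exact Or.inr hq
        · refine Or.inl ⟨hsub _ h1, ?_⟩
          rintro (h2 | h2)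
          · exact h2.2 h1
          · exact hq h2
      · exact Or.inr h1
  have f1 := hle _ _ e1
  have f2 := hle _ _ e2
  have f3 := hle _ _ e3
  rw [hjoin] at f2
  have main : h (compB ea et) ⊆ h (compB ea ek) ∪ h (compB ea er) := by
    rintro ⟨x, w⟩ hxw
    rw [hcomp] at hxw
    obtain ⟨y, hxy, hyw⟩ := hxw
    rcases f2 hyw with hk | hk'
    · left
      rw [hcomp]
      exact ⟨y, hxy, hk⟩
    · right
      have hxy2 := f1 hxy
      rw [hcomp] at hxy2
      obtain ⟨u, hxu, huy⟩ := hxy2
      have h1 : (u, w) ∈ h (compB ea et) := by rw [hcomp]; exact ⟨y, huy, hyw⟩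
      have h2 : (u, w) ∈ h (compB ea ek') := by rw [hcomp]; exact ⟨y, huy, hk'⟩
      have h3 := f3 h1
      rw [himp] at h3
      have h4 : (u, w) ∈ h er := by
        rcases h3 with h3 | h3
        · exact absurd h2 h3.2
        · exact h3
      rw [hcomp]
      exact ⟨u, hxu, h4⟩
  apply e4
  apply hinj
  rw [hone, himp, hjoin]
  ext e
  constructor
  · rintro (h1 | h1 | h1)
    · exact h1.1
    · exact hsub _ h1
    · exact hsub _ h1
  · intro he
    by_cases hq : e ∈ h (compB ea et)
    · exact Or.inr (main hq)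
    · exact Or.inl ⟨he, hq⟩

theorem result :
    ∃ (A B : Type) (impA compA : A → A → A) (impB compB : B → B → B) (f : A → B),
      Finite A ∧ Function.Surjective f ∧
      (∀ a b, f (impA a b) = impB (f a) (f b)) ∧
      (∀ a b, f (compA a b) = compB (f a) (f b)) ∧
      FinitelyRepresentable.{v} impA compA ∧ ¬ Representable.{v} impB compB := by
  refine ⟨A, B, impA, compA, impB, compB, f, inferInstance, f_surj, ?_, ?_, A_rep, B_not_rep⟩
  · intro a b
    exact Subtype.ext (sat_imp a.1 b.1)
  · intro a b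
    exact Subtype.ext (sat_comp a.2 b.2)

end Pool.Agent.Lib.MP_390e14_lc.NotVarietyRetired
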